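import Pool.Agent.Helper1.TE.Goals2

/-!
# PROJECT TE (MP_8b4d68_lc), packet FC (helper28)
-/

namespace Pool.Agent.Helper28.TE

open Pool.Agent.Helper1.TE
open Pool.Agent.Helper65.LinSpace (dig tab nrec ifz eq01 le01 lt01 capPow Ctx)
open Finset

theorem word_lt' (w : List Bool) (i b : ℕ) : word w i b < 2 ^ b := by
  induction b with
  | zero => simp [word]
  | succ b ih =>
    rw [word, pow_succ]
    have h1 : (w.getD (i + b) false).toNat ≤ 1 := Bool.toNat_le _
    omega

theorem toF_C0 (k : Fin 3) : toF C0 k = (0, 0) := by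
  unfold toF getC cif C0
  split
  · rfl
  · split <;> rfl

theorem RP_pos (h b : ℕ) (hb : 1 ≤ b) : 1 ≤ RP h b := by
  have h1 : 1 ≤ sP h b := by
    unfold sP
    exact le_min hb (by omega)
  unfold RP
  exact Nat.div_pos (by omega) (by omega)

/-- FC -/
theorem gFC : GoalFC := by
  intro hCHS hALG hFC0 hOK hBS ok tst mal w h b hF hroot
  have h1 : 1 ≤ h := hF.1.2.2.1
  have hb1 : 1 ≤ b := hF.1.2.2.2.1
  -- the claim
  have claim : ∀ (t : ℕ) (x F : Fin 3 → ℕ × ℕ), Ch (opM tst h b w) (2 ^ b) t x F →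
      x = toF C0 → t ≤ 5 ^ h →
      (t < 5 ^ h → ∃ C, toF C = F ∧
        (machM ok tst mal).Reach w (mainS h b 0 (2 ^ EP h b) t 0 0 C)) ∧
      (t = 5 ^ h → (machM ok tst mal).Reach w accS) := by
    intro t x F hch
    induction hch with
    | zero s =>
      intro hx _
      refine ⟨fun _ => ⟨C0, hx.symm, hFC0 ok tst mal w h b hF⟩, fun h0 => ?_⟩
      have : 0 < 5 ^ h := by positivity
      omega
    | succ a a' ha ha' _ hstep ih =>
      intro hx ht
      obtain ⟨C, hC, hR⟩ := (ih hx (by omega)).1 (by omega)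
      rw [← hC] at hstep
      obtain ⟨C', hC', hR'⟩ := hBS ok tst mal w h b _ a a' C _ hF (by omega) ha ha' hR hstep
      refine ⟨fun h2 => ⟨C', hC', ?_⟩, fun h2 => ?_⟩
      · rwa [if_pos h2] at hR'
      · rwa [if_neg (by omega)] at hR'
  -- the chain
  have hV : ∀ k, (gadM h b (2 ^ EP h b)).V (toF C0 k) := by
    intro k
    rw [toF_C0]
    change 0 < (LP h b (2 ^ EP h b) + RP h b) ^ (mP h b + 2)
    have := RP_pos h b hb1
    exact pow_pos (by omega) _
  have hA := (hALG hCHS (gadM h b (2 ^ EP h b)) (hOK h b h1 hb1) tst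
    (leafV h b (w.drop (h + b + 2))) (tabV h b (w.drop (h + b + 2)))
    (fun j => word_lt' _ _ _) (fun j x y => word_lt' _ _ _) h 1 0 0 (toF C0)
    (Function.update (toF C0) 0 (toF C0 0)) hV).2 ⟨toF C0 0, ?_, rfl⟩
  · exact (claim (5 ^ h) (toF C0) _ hA rfl le_rfl).2 rfl
  · have h2 : nval (leafV h b (w.drop (h + b + 2))) (tabV h b (w.drop (h + b + 2))) h 1
        = rootValue h b (w.drop (h + b + 2)) := rfl
    rw [h2, app, if_pos rfl, if_neg hroot]

end Pool.Agent.Helper28.TE
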